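import Pool.Agent.H934R3.NP.Stmts

open MeasureTheory Set Filter Topology
open scoped ENNReal NNReal

namespace Pool.Agent.H244R3.NPF2
open Pool.Agent.H934R3.NP

lemma norm_dG (z : E) : ‖dG z‖ = (1 / (4 * Real.pi)) * (1 / ‖z‖ ^ 2) := by
  unfold dG
  rw [norm_smul, norm_neg, Real.norm_eq_abs, abs_of_nonneg (by positivity)]
  rcases eq_or_ne z 0 with rfl | hz
  · simp
  · have : ‖z‖ ≠ 0 := norm_ne_zero_iff.2 hz
    field_simp

lemma measurable_dG : Measurable dG := by
  unfold dG
  fun_prop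

lemma G_neg (z : E) : G (-z) = G z := by
  unfold G; rw [norm_neg]

theorem t : TaskF2 := by
  intro hB4 g hg hbd hdiv S hS v n φ hn
  obtain ⟨hfin, -⟩ := hbd
  obtain ⟨R, hR⟩ := hg.pos
  obtain ⟨C, hC, hCb⟩ := hB4.1 R
  have hOm : Om g ⊆ Metric.closedBall (0 : E) R := by
    intro z hz
    rw [mem_closedBall_zero_iff]
    by_contra h
    push Not at h
    have h1 := hR z h.le
    have h2 : g z < 0 := hz
    linarith
  set μ : Measure E := (volume : Measure E).restrict (Om g) with hμ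
  -- integrability on the product
  have hφ : Integrable (φ : E → ℝ) (sig g) :=
    (Lp.memLp φ).integrable (by norm_num)
  have hmeas : AEStronglyMeasurable (fun p : E × E => (φ : E → ℝ) p.2 • dG (p.1 - p.2))
      (μ.prod (sig g)) := by
    have a1 : AEStronglyMeasurable (fun p : E × E => (φ : E → ℝ) p.2) (μ.prod (sig g)) :=
      hφ.aestronglyMeasurable.comp_snd
    have a2 : AEStronglyMeasurable (fun p : E × E => dG (p.1 - p.2)) (μ.prod (sig g)) :=
      (measurable_dG.comp (measurable_fst.sub measurable_snd)).aestronglyMeasurable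
    exact a1.smul a2
  have hint : Integrable (fun p : E × E => (φ : E → ℝ) p.2 • dG (p.1 - p.2)) (μ.prod (sig g)) := by
    refine ⟨hmeas, ?_⟩
    unfold HasFiniteIntegral
    rw [lintegral_prod_symm _ hmeas.enorm]
    have hb : ∀ y : E, ∫⁻ z, ‖(φ : E → ℝ) y • dG (z - y)‖ₑ ∂μ ≤
        ‖(φ : E → ℝ) y‖ₑ * (ENNReal.ofReal (1 / (4 * Real.pi)) * ENNReal.ofReal C) := by
      intro y
      have e : ∀ z, ‖(φ : E → ℝ) y • dG (z - y)‖ₑ =
          ‖(φ : E → ℝ) y‖ₑ * (ENNReal.ofReal (1 / (4 * Real.pi)) *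
            ENNReal.ofReal (1 / ‖z - y‖ ^ 2)) := by
        intro z
        rw [enorm_smul]
        congr 1
        rw [← ofReal_norm, norm_dG, ENNReal.ofReal_mul (by positivity)]
      simp_rw [e]
      rw [lintegral_const_mul' _ _ enorm_ne_top, lintegral_const_mul' _ _ ENNReal.ofReal_ne_top]
      gcongr
      exact (lintegral_mono_set hOm).trans (hCb y)
    refine lt_of_le_of_lt (lintegral_mono hb) ?_
    rw [lintegral_mul_const' _ _ (ENNReal.mul_ne_top ENNReal.ofReal_ne_top ENNReal.ofReal_ne_top)]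
    exact ENNReal.mul_lt_top hφ.2 (ENNReal.mul_lt_top ENNReal.ofReal_lt_top ENNReal.ofReal_lt_top)
  have h1 : ∀ᵐ z ∂μ, inner ℝ (uu (sig g) φ z) v =
      ∫ y, inner ℝ v ((φ : E → ℝ) y • dG (z - y)) ∂(sig g) := by
    filter_upwards [hint.prod_right_ae] with z hz
    rw [real_inner_comm, integral_inner hz]
    rfl
  have h2 : ∫ z in Om g, inner ℝ (uu (sig g) φ z) v =
      ∫ z, ∫ y, inner ℝ v ((φ : E → ℝ) y • dG (z - y)) ∂(sig g) ∂μ := integral_congr_ae h1
  rw [h2, integral_integral_swap (f := fun z y => inner ℝ v ((φ : E → ℝ) y • dG (z - y)))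
    (hint.const_inner v), L2.inner_def]
  apply integral_congr_ae
  filter_upwards [hS n] with y hy
  have h3 : ∫ z, inner ℝ v ((φ : E → ℝ) y • dG (z - y)) ∂μ =
      (φ : E → ℝ) y * ∫ z in Om g, inner ℝ (dG (z - y)) v := by
    rw [← integral_const_mul]
    apply integral_congr_ae
    filter_upwards with z
    rw [inner_smul_right, real_inner_comm]
  have h4 : ∫ z, G (z - y) * inner ℝ (nu g z) v ∂(sig g) = S n y := by
    rw [hy]
    apply integral_congr_ae
    filter_upwards [hn] with z hz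
    rw [hz, ← G_neg (y - z), neg_sub]
  rw [h3, hdiv y v, h4]
  simp [mul_comm]

end Pool.Agent.H244R3.NPF2
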